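import Pool.Agent.Lib.MP_fe96bf_al.N3

set_option autoImplicit false

namespace Pool.Agent.Results.MP_fe96bf_al.NilpotentLength

/-- n has only prime divisors in π. -/
def IsPiNumber (π : Set ℕ) (n : ℕ) : Prop := ∀ p : ℕ, p.Prime → p ∣ n → p ∈ π

/-- G has a series 1 = S 0 ≤ S 1 ≤ ... ≤ S m = G of normal subgroups of G in which every factor
is a π-group or a π'-group. -/
def PiSeparable (π : Set ℕ) (G : Type) [Group G] : Prop :=
  ∃ (m : ℕ) (S : ℕ → Subgroup G), S 0 = ⊥ ∧ S m = ⊤ ∧ (∀ i, S i ≤ S (i + 1)) ∧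
    (∀ i, (S i).Normal) ∧
    ∀ i < m, IsPiNumber π (Nat.card (S (i + 1) ⧸ (S i).subgroupOf (S (i + 1)))) ∨
      IsPiNumber πᶜ (Nat.card (S (i + 1) ⧸ (S i).subgroupOf (S (i + 1))))

open Pool.Agent.Lib.MP_fe96bf_al Pool.Agent.Lib.MP_fe96bf_al.Nil in
theorem result (π : Set ℕ) (G : Type) [Group G] [Finite G] (hG : PiSeparable π G)
    (H : Subgroup G) (hH : IsPiNumber π (Nat.card H)) (hi : IsPiNumber πᶜ H.index)
    (d : ℕ) (hd : derivedSeries H d = ⊥) :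
    ∃ (T : ℕ → Subgroup G) (_ : ∀ i, (T i).Normal), T 0 = ⊥ ∧ T (2 * d + 1) = ⊤ ∧
      (∀ i, T i ≤ T (i + 1)) ∧
      (∀ i ≤ d, IsPiNumber πᶜ
        (Nat.card (T (2 * i + 1) ⧸ (T (2 * i)).subgroupOf (T (2 * i + 1))))) ∧
      (∀ i < d, IsPiNumber π
          (Nat.card (T (2 * i + 2) ⧸ (T (2 * i + 1)).subgroupOf (T (2 * i + 2)))) ∧
        Group.IsNilpotent (T (2 * i + 2) ⧸ (T (2 * i + 1)).subgroupOf (T (2 * i + 2)))) := by
  have hH' : Sec π ⊥ H := sec_bot_iff_card.mpr ⟨Nat.card_pos.ne', hH⟩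
  have hi' : PiNum πᶜ H.index := ⟨H.index_ne_zero_of_finite, hi⟩
  have hd' : dser H d = ⊥ := by rw [dser_eq_map, hd, Subgroup.map_bot]
  have hS : Sol π G := by
    obtain ⟨m, S, h0, hm, -, hn, hf⟩ := hG
    refine SolT.sol _ G rfl ⟨m, S, h0, hm, hn, fun i hi => ?_⟩
    have := hn i
    have := hn (i + 1)
    have hne : (S i).relIndex (S (i + 1)) ≠ 0 :=
      ((S i).subgroupOf (S (i + 1))).index_ne_zero_of_finite
    rcases hf i hi with h | h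
    · have h1 : Sec π (S i) (S (i + 1)) := sec_iff_relIndex.mpr ⟨hne, h⟩
      exact Or.inr ⟨h1, d, dser_le_of_hall hH' hi' hd' h1⟩
    · exact Or.inl (sec_iff_relIndex.mpr ⟨hne, h⟩)
  obtain ⟨T, t0, t1, t2, t3, t4, t5⟩ :=
    NLen.series ⊥ (main_NDL d G hS (dl_of_hall hS hH' hi' hd'))
  refine ⟨T, t3, t0, t1 _ le_rfl, t2, fun i hi => ?_, fun i hi => ⟨?_, ?_⟩⟩
  · have := t3 (2 * i)
    exact (sec_iff_relIndex.mp (t4 i hi)).2
  · have := t3 (2 * i + 1)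
    exact (sec_iff_relIndex.mp (t5 i hi).1).2
  · have := t3 (2 * i + 1)
    exact nilpotent_factor (t5 i hi).2

end Pool.Agent.Results.MP_fe96bf_al.NilpotentLength
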